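import Mathlib
import Pool.Agent.BSI.Stmts

set_option autoImplicit false

/-! Row HB2 of the squad BSI (MP_b2b50d_lc). -/

namespace Pool.Agent.BSI.H31

open MvPolynomial Pool.Agent.Helper78_ACIT Pool.Agent.BSH Pool.Agent.BSI

variable {E A : Type} [Field E] [CommRing A] [Algebra E A]

lemma one_mem_sp (B : Set A) (l : List A) : (1 : A) ∈ sp E B l :=
  Submodule.subset_span (by simp)

lemma sp_mono {B B' : Set A} (h : B ⊆ B') : sp E B [] ≤ sp E B' [] := by
  unfold sp
  apply Submodule.span_mono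
  intro x hx
  rcases hx with (hx | hx) | hx
  · exact Or.inl (Or.inl hx)
  · exact Or.inl (Or.inr (h hx))
  · exact Or.inr hx

lemma sp_cons_set (B : Set A) (g : A) (P : List A) :
    sp E (B ∪ {x | x ∈ g :: P}) [] = sp E (B ∪ {x | x ∈ P}) [] ⊔ Submodule.span E {g} := by
  unfold sp
  rw [← Submodule.span_union]
  congr 1
  ext x
  simp only [Set.mem_union, Set.mem_singleton_iff, Set.mem_setOf_eq, List.mem_cons,
    List.not_mem_nil]
  tauto

lemma sp_nil_set (B : Set A) : sp E (B ∪ {x | x ∈ ([] : List A)}) [] = sp E B [] := by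
  unfold sp
  congr 1
  ext x
  simp only [Set.mem_union, Set.mem_singleton_iff, Set.mem_setOf_eq, List.not_mem_nil]
  tauto

lemma sp_cons (B : Set A) (g : A) (l : List A) :
    sp E B (g :: l) = sp E B l ⊔ Submodule.span E {g} := by
  unfold sp
  rw [← Submodule.span_union]
  congr 1
  ext x
  simp only [Set.mem_union, Set.mem_singleton_iff, Set.mem_setOf_eq, List.mem_cons]
  tauto

lemma fin_sup {W : Submodule E A} (g : A) (h : Module.Finite E W) :
    Module.Finite E (W ⊔ Submodule.span E {g} : Submodule E A) := by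
  haveI := h
  exact Submodule.finite_sup W (Submodule.span E {g})

lemma pow_mono {V W : Submodule E A} (h : V ≤ W) (n : ℕ) : V ^ n ≤ W ^ n :=
  pow_le_pow_left' h n

/-- Adjoin a list of elements of the power `δ` of the base space. -/
lemma grow (adj : AdjStmt) [IsDomain A] (S : Set A) (δ D : ℕ) (hδ : 1 ≤ δ)
    (hS : Module.Finite E (sp E S [])) (P : List A) (hP : ∀ u ∈ P, u ∈ (sp E S []) ^ δ) :
    Module.Finite E (sp E (S ∪ {x | x ∈ P}) []) ∧
    Module.finrank E ((sp E (S ∪ {x | x ∈ P}) []) ^ D : Submodule E A) ≤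
      δ ^ P.length * Module.finrank E ((sp E S []) ^ D : Submodule E A) := by
  induction P with
  | nil =>
    rw [sp_nil_set]
    exact ⟨hS, by simp⟩
  | cons g P ih =>
    obtain ⟨h1, h2⟩ := ih fun u hu => hP u (List.mem_cons_of_mem _ hu)
    rw [sp_cons_set]
    refine ⟨fin_sup g h1, ?_⟩
    have hg : g ∈ (sp E (S ∪ {x | x ∈ P}) []) ^ δ :=
      pow_mono (sp_mono Set.subset_union_left) δ (hP g List.mem_cons_self)
    calc _ ≤ δ * Module.finrank E ((sp E (S ∪ {x | x ∈ P}) []) ^ D : Submodule E A) :=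
          adj E A _ g δ D h1 (one_mem_sp _ _) hδ hg
      _ ≤ δ * (δ ^ P.length * Module.finrank E ((sp E S []) ^ D : Submodule E A)) :=
          Nat.mul_le_mul_left _ h2
      _ = _ := by rw [List.length_cons, pow_succ]; ring

/-- Adjoin the products of a computation. -/
lemma growCh (adj : AdjStmt) [IsDomain A] (S : Set A) (D : ℕ)
    (hS : Module.Finite E (sp E S [])) (l : List A) (hl : Ch E S l) :
    Module.Finite E (sp E S l) ∧
    Module.finrank E ((sp E S l) ^ D : Submodule E A) ≤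
      2 ^ l.length * Module.finrank E ((sp E S []) ^ D : Submodule E A) := by
  induction l with
  | nil => exact ⟨hS, by simp⟩
  | cons g l ih =>
    obtain ⟨hl1, a, ha, b, hb, rfl⟩ := hl
    obtain ⟨h1, h2⟩ := ih hl1
    rw [sp_cons]
    refine ⟨fin_sup _ h1, ?_⟩
    have hg : a * b ∈ (sp E S l) ^ 2 := by
      rw [pow_two]
      exact Submodule.mul_mem_mul ha hb
    calc _ ≤ 2 * Module.finrank E ((sp E S l) ^ D : Submodule E A) :=
          adj E A _ (a * b) 2 D h1 (one_mem_sp _ _) (by norm_num) hg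
      _ ≤ 2 * (2 ^ l.length * Module.finrank E ((sp E S []) ^ D : Submodule E A)) :=
          Nat.mul_le_mul_left _ h2
      _ = _ := by rw [List.length_cons, pow_succ]; ring

/-- Row HB2. -/
theorem hb2 (adj : AdjStmt) : Hb2Stmt := by
  intro E A _ _ _ _ B L M l δ D hB hδ hL hM hl
  obtain ⟨f1, e1⟩ := grow adj B 2 D (by norm_num) hB L hL
  obtain ⟨f2, e2⟩ := grow adj (B ∪ {x | x ∈ L}) δ D hδ f1 M
    fun u hu => pow_mono (sp_mono Set.subset_union_left) δ (hM u hu)
  obtain ⟨-, e3⟩ := growCh adj (B ∪ {x | x ∈ L} ∪ {x | x ∈ M}) D f2 l hl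
  calc _ ≤ 2 ^ l.length * Module.finrank E
        ((sp E (B ∪ {x | x ∈ L} ∪ {x | x ∈ M}) []) ^ D : Submodule E A) := e3
    _ ≤ 2 ^ l.length * (δ ^ M.length * Module.finrank E
        ((sp E (B ∪ {x | x ∈ L}) []) ^ D : Submodule E A)) := Nat.mul_le_mul_left _ e2
    _ ≤ 2 ^ l.length * (δ ^ M.length * (2 ^ L.length * Module.finrank E
        ((sp E B []) ^ D : Submodule E A))) :=
        Nat.mul_le_mul_left _ (Nat.mul_le_mul_left _ e1)
    _ = _ := by rw [pow_add]; ring

end Pool.Agent.BSI.H31
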